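import Pool.Agent.K3h63.IQ.Stm

/-!
# Project IQ (helper63), brick NILN: nilpotence on the tensor powers of `M` (helper37)
-/

set_option autoImplicit false
set_option linter.unusedSectionVars false

open CategoryTheory Limits MonoidalCategory
open Pool.Agent.Y112.SR Pool.Agent.Y112.KD Pool.Agent.Y112.SC Pool.Agent.R905
open Pool.Agent.K3h63.IQ

namespace Pool.Agent.K3h37.IQ

universe v u w

section

variable {C : Type u} [Category.{v} C]

lemma conj_pow {A B : C} (e : A ≅ B) (f : A ⟶ A) (k : ℕ) :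
    (en (e.inv ≫ f ≫ e.hom)) ^ k = en (e.inv ≫ ((en f ^ k : End A) : A ⟶ A) ≫ e.hom) := by
  induction k with
  | zero =>
    change 𝟙 B = e.inv ≫ 𝟙 A ≫ e.hom
    simp
  | succ k ih =>
    rw [pow_succ, ih, pow_succ, End.mul_def, End.mul_def]
    simp only [en, Category.assoc, Iso.hom_inv_id_assoc]

lemma comm_conj {A B : C} (e : A ≅ B) (f x : A ⟶ A) (y : B ⟶ B) (h : x ≫ e.hom = e.hom ≫ y)
    (hf : f ≫ x = x ≫ f) :
    (e.inv ≫ f ≫ e.hom) ≫ y = y ≫ (e.inv ≫ f ≫ e.hom) := by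
  have hy : y = e.inv ≫ x ≫ e.hom := by rw [h, Iso.inv_hom_id_assoc]
  rw [hy]
  simp only [Category.assoc, Iso.hom_inv_id_assoc]
  rw [reassoc_of% hf]

end

section

variable {C : Type u} [Category.{v} C] [MonoidalCategory C] [SymmetricCategory C]

/-- exchange of the last two factors -/
def ex (W M Y : C) : (W ⊗ M) ⊗ Y ≅ (W ⊗ Y) ⊗ M :=
  α_ W M Y ≪≫ whiskerLeftIso W (β_ M Y) ≪≫ (α_ W Y M).symm

lemma ex_right (W : C) {M : C} (Y : C) (r : M ⟶ M) :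
    (W ◁ r) ▷ Y ≫ (ex W M Y).hom = (ex W M Y).hom ≫ (W ⊗ Y) ◁ r := by
  simp only [ex, Iso.trans_hom, whiskerLeftIso_hom, Iso.symm_hom, Category.assoc]
  rw [associator_naturality_middle_assoc, ← whiskerLeft_comp_assoc,
    BraidedCategory.braiding_naturality_left, whiskerLeft_comp_assoc,
    associator_inv_naturality_right]

lemma ex_left {W : C} (M Y : C) (a : W ⟶ W) :
    (a ▷ M) ▷ Y ≫ (ex W M Y).hom = (ex W M Y).hom ≫ (a ▷ Y) ▷ M := by
  simp only [ex, Iso.trans_hom, whiskerLeftIso_hom, Iso.symm_hom, Category.assoc]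
  rw [associator_naturality_left_assoc, ← whisker_exchange_assoc,
    associator_inv_naturality_left]

end

section

variable {C : Type u} [Category.{v} C] [Preadditive C] [Linear ℚ C]
  [MonoidalCategory C] [MonoidalPreadditive C] [MonoidalLinear ℚ C] [SymmetricCategory C]
  [RightRigidCategory C] {K : Type w} [Field K] (R : SuperRealisation C K)

lemma nil_of_conj {A B : C} (e : A ≅ B) (f : A ⟶ A) (h : IsNilpotent (en (e.inv ≫ f ≫ e.hom))) :
    IsNilpotent (en f) := by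
  obtain ⟨k, hk⟩ := h
  refine ⟨k, ?_⟩
  rw [conj_pow] at hk
  have h1 : e.inv ≫ ((en f ^ k : End A) : A ⟶ A) ≫ e.hom = 0 := hk
  have h2 : e.hom ≫ (e.inv ≫ ((en f ^ k : End A) : A ⟶ A) ≫ e.hom) ≫ e.inv = 0 := by
    rw [h1]; simp
  simpa using h2

lemma map_conj {A B : C} (e : A ≅ B) (f : A ⟶ A) (h : R.H.map f = 0) :
    R.H.map (e.inv ≫ f ≫ e.hom) = 0 := by
  rw [Functor.map_comp, Functor.map_comp, h]
  simp

theorem main (h1 : S_ONE.{v, u, w}) (hU : UnitQ C)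
    (G : Type) [Group G] [Fintype G] (M N P : C) (ρ : G →* End M) (τ : G →* End N)
    (j : P ⟶ M ⊗ N) (q : M ⊗ N ⟶ P) (hI : IsInv ρ τ j q)
    (hκ : IsUnit (∑ g, trq hU N (τ g) • ρ g : End M)) (n : ℕ) :
    ∀ Y : C, HomNil R (Y ⊗ tp P n) → ∀ f : tp M n ⊗ Y ⟶ tp M n ⊗ Y, R.H.map f = 0 →
      (∀ a : tp M n ⟶ tp M n, IsAct ρ n a → f ≫ a ▷ Y = a ▷ Y ≫ f) → IsNilpotent (en f) := by
  induction n with
  | zero =>
    intro Y hY f hf _
    exact (hY.retract ((λ_ Y).hom ≫ (ρ_ Y).inv) ((ρ_ Y).hom ≫ (λ_ Y).inv) (by simp)) (en f) hf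
  | succ n ih =>
    intro Y hY f hf hc
    obtain ⟨-, hone2, hone3, hone4⟩ := h1 C K R hU G M N P ρ τ j q hI (tp M n ⊗ Y)
    have hY' : HomNil R ((Y ⊗ P) ⊗ tp P n) := by
      refine HomNil.retract hY ((α_ Y P (tp P n)).hom ≫ Y ◁ (β_ P (tp P n)).hom)
        (Y ◁ (β_ P (tp P n)).inv ≫ (α_ Y P (tp P n)).inv) ?_
      rw [Category.assoc, ← whiskerLeft_comp_assoc, Iso.hom_inv_id]
      simp
    set e := ex (tp M n) M Y with he
    set f' : (tp M n ⊗ Y) ⊗ M ⟶ (tp M n ⊗ Y) ⊗ M := e.inv ≫ f ≫ e.hom with hf'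
    have hf'0 : R.H.map f' = 0 := map_conj R e f hf
    have hf'r : ∀ g, f' ≫ (tp M n ⊗ Y) ◁ ((ρ g : End M) : M ⟶ M) =
        (tp M n ⊗ Y) ◁ ((ρ g : End M) : M ⟶ M) ≫ f' := fun g =>
      comm_conj e f _ _ (ex_right (tp M n) Y _) (hc _ (IsAct.last n g))
    have hf'a : ∀ a : tp M n ⟶ tp M n, IsAct ρ n a → f' ≫ (a ▷ Y) ▷ M = (a ▷ Y) ▷ M ≫ f' :=
      fun a ha => comm_conj e f _ _ (ex_left M Y a) (hc _ (IsAct.lift n a ha))
    set t : (tp M n ⊗ Y) ⊗ P ⟶ (tp M n ⊗ Y) ⊗ P := tw j q f' with ht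
    have ht0 : R.H.map t = 0 := hone2 f' hf'0
    have hta : ∀ a : tp M n ⟶ tp M n, IsAct ρ n a → t ≫ (a ▷ Y) ▷ P = (a ▷ Y) ▷ P ≫ t :=
      fun a ha => hone3 _ _ (hf'a a ha)
    have hnil : IsNilpotent (en t) := by
      refine nil_of_conj (α_ (tp M n) Y P) t ?_
      refine ih (Y ⊗ P) hY' _ (map_conj R _ t ht0) fun a ha => ?_
      exact comm_conj _ t _ _ (associator_naturality_left _ _ _) (hta a ha)
    obtain ⟨k, hk⟩ := hnil
    have hpow : ∀ k : ℕ, tw j q ((en f' ^ k : End _) : (tp M n ⊗ Y) ⊗ M ⟶ (tp M n ⊗ Y) ⊗ M) =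
        ((en t ^ k : End _) : (tp M n ⊗ Y) ⊗ P ⟶ (tp M n ⊗ Y) ⊗ P) := by
      intro k
      induction k with
      | zero =>
        exact (h1 C K R hU G M N P ρ τ j q hI (tp M n ⊗ Y)).1
      | succ k ihk =>
        rw [pow_succ', pow_succ', End.mul_def, End.mul_def]
        refine ((hone4 f' hf'r).1 _).trans ?_
        rw [ihk]
        rfl
    have hcomm : ∀ k : ℕ, ∀ g, ((en f' ^ k : End _) : (tp M n ⊗ Y) ⊗ M ⟶ (tp M n ⊗ Y) ⊗ M) ≫
        (tp M n ⊗ Y) ◁ ((ρ g : End M) : M ⟶ M) =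
        (tp M n ⊗ Y) ◁ ((ρ g : End M) : M ⟶ M) ≫
          ((en f' ^ k : End _) : (tp M n ⊗ Y) ⊗ M ⟶ (tp M n ⊗ Y) ⊗ M) := by
      intro k g
      have h2 : Commute (en f') (en ((tp M n ⊗ Y) ◁ ((ρ g : End M) : M ⟶ M))) := by
        change _ * _ = _ * _
        rw [End.mul_def, End.mul_def]
        exact (hf'r g).symm
      have h3 := (h2.pow_left k).eq
      rw [End.mul_def, End.mul_def] at h3
      exact h3.symm
    have h0 := (hone4 _ (hcomm k)).2 (by rw [hpow, hk])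
    have hf'k : (en f' ^ k : End _) = 0 := by
      obtain ⟨u, hu⟩ := hκ
      have h2 : ((∑ g, trq hU N (τ g) • ρ g : End M) : M ⟶ M) ≫ ((↑(u⁻¹) : End M) : M ⟶ M) =
          𝟙 M := by
        have h3 : (↑(u⁻¹) : End M) * (∑ g, trq hU N (τ g) • ρ g : End M) = 1 := by
          rw [← hu]; exact u.inv_mul
        rw [End.mul_def] at h3
        exact h3
      have h4 := congrArg (fun z => z ≫ (tp M n ⊗ Y) ◁ ((↑(u⁻¹) : End M) : M ⟶ M)) h0
      simp only [Category.assoc, zero_comp] at h4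
      rw [← whiskerLeft_comp, h2, whiskerLeft_id, Category.comp_id] at h4
      exact h4
    exact nil_of_conj e f ⟨k, hf'k⟩

end

/-- **Brick NILN** (from ONE). -/
theorem t_NILN (h1 : S_ONE.{v, u, w}) : S_NILN.{v, u, w} := by
  intro C _ _ _ _ _ _ _ _ K _ R hU G _ _ M N P ρ τ j q hI hκ n hn f hf hc
  have h2 : HomNil R (𝟙_ C ⊗ tp P n) := hn.retract (λ_ (tp P n)).hom (λ_ (tp P n)).inv (by simp)
  refine nil_of_conj (ρ_ (tp M n)).symm f ?_
  refine main R h1 hU G M N P ρ τ j q hI hκ n (𝟙_ C) h2 _ (map_conj R _ f hf) fun a ha => ?_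
  exact comm_conj _ _ a _ (rightUnitor_inv_naturality a) (hc a ha)

end Pool.Agent.K3h37.IQ
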